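import Pool.Agent.Helper225.Cert.MN01012fff3e_1

set_option autoImplicit false
set_option maxRecDepth 1000000

namespace Pool.Agent.Helper225.G

theorem cN468733148c_52 : CertG 0xffffffffffffffffffffffffffffffffffffffffffffffffffffffffffffffffffffffffff777fffffa6efffff808bffff8213ffff0007ffffc007ffff8003ffff8003ffff600bffffc005ffff8003ffffb00bffffe20fffffc007ffffbbbbffffffffffffffffffffffffffffffffffffffffffffffffffffffffffffffffff0000000000000000 [496, 495] [595] :=
  ⟨(Nat.lor 0x1004e7311cf7a0d2e8111ef993a8ea3006ea311ef9a36adab022e8b01ad8a000001004d6b114e72040e710d0e810946520845b2000015000e8d00edac4a128200118d466d7a001095320c83022c83012b82000001024c8301cb7a000001026c9300eb9a085215074970000015000d8d08421106c171000014000c8509c67209ba5108be1307398f000025024d7b00cc72000001004d7b11ce8231cc73022d8300ac82000001006ea3116f9a0e2e81360d83002d8311ae82320c83024e7300cd6a000001006ea311ef9a4a4e73024f7b024e7235ad6b00118d461182001085466d7a0010950a4a93093a2f08b60f07b5d306c9b206b99305cd7305c170000045024d7b00cc72000001004d7b11ce8231cc73026ea300edaa000001024e7300cd6a0d2e8111ef993a8ea3006ea311ef9a36adab022e8b01ad8a000001004d6b114e74040e740d0e840946520845b2000015000e8d00edac4a128200118d466d7a001095360d82024d7b00cc72000001004d7b11ce8231cc73026c9300eb9a000001006c9311ed8a2e6b9b026dab00ecb2000001004c8311cd8c0d0e840cad8c11eea436adab006dab11eea232ccb3022c8b00ab8a000001004c8311cd8a0d0e81084612064572000015000e8d046cb446318a000ea541cc92000d8d466d7a001095421082000e873e4f92000f9f3dcf72000f8f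 (Nat.shiftLeft (Nat.lor 0x1024c7300cb6a000001006b8b116c82424c73024d7b024c722dab6b000d7d08421106c171000014000c8509ca5308c9d306c99300001d024c7300cb6a000001004c7311cd7a2dab6b022c83012b82000001006b8b116c8208421106c171000015000c85424c72000d7d09ba5209425008d23208c22d08ae140846100835d40745d00735b506b5ad064590063173000065024c7300cb6a000001004c7311cd7a2dab6b022c7b00ab7a000001002c7b11ad7a2deb7b020e6b010e62000001026c8300eb8c010e643a2e8b026c8300eb8c108e6c398e63024c6b00cb62000001006b8311ec7a422c6b024d73024c6a2d8b63000d7539ce72000e6d00ab7c41f07a020e73008e6a000001006d9311ee8a3a4e73020e7b020e7239ae6b000e8d11ad7c31ec7a000e7d424c72000d7d360d82000e873dcf72000f6f3e4f92018f7b000001026c9300eb9a000001006c9311ed8a2e6b9b022c83012b82000001004b7b114c8208421106c171000015000c8541cc92000d8d000001022d8300ac82000001002d8311ae82320c83026c9300eb9a000001026d9b00eca201cb7941cc93006c9311ed8a2e6b9b000d8d042c84461182024d7b00cc72000001006ea3116f9a466d7b024e83024d7a31cc730010950e2e84360d820010854290a3024d7b00cc72000001004d7b11ce8231cc73026ea300edaa00 (Nat.shiftLeft (Nat.lor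 0x118f7c3daf6b008f6b000001022d8300ac82000001002d8311ae82320c83024c7300cb6a000001004c7311cd7a2dab6b024d6b00cc62000001006c8311ed7a462d6b024e73024d6a318c63000e75424c72000d7d460d82001085000001024c7300cb6a000001004c7311cd7a2dab6b026c8300eb8a000001006c8311ed7a2e2b8b020e6b018e62000001022c7b00ab7a018e613a2e8b022c7b00ab7a110e69398e63022e6b01ad6a000001006d8b116e8209364e0835ae00001500116d39ee7a000e6d418c82000e75424c72000d7d421083002d8311ae82000001024c7300cb6a000001004c7311cd7a2dab6b026d8b00ec92000001006d8b11ee82324c9302106b009062000001002c7b10ad7a08461208360d00001500107d45ad8a001075424c72000d7d09425108c1b1000014001085320c83026d8b00ec92000001006d8b11ee82324c93022d8300ac82000001026e9300ed9a01ce610e2e81360d83002d8311ae82320c83024e6300cd5a000001026e9300ed9a0942510731ac00001500117d00ac8446118200108545ad8a00107535eb73022d8300ac82000001002d8311ae82320c83026d8b00ec92000001006d8b11ee82324c93024e6300cd5a000001026e9300ed9a0942510731ac00001500117d45ad8a001075460d8200108508ce130831cf06396e00001d022c83012b820000 (Nat.shiftLeft 0x20f73008f6c000001000f73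 4000)) 4000)) 4000)), by decide +kernel⟩

end Pool.Agent.Helper225.G
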